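import Pool.Agent.Helper53.SL.St2

set_option autoImplicit false

open MeasureTheory Set

noncomputable section

namespace Pool.Agent.Helper2.SLM

open Pool.Agent.Helper53.SL

/-- the truncation of `f` at the level `2 ^ ((i + 2) * k)` -/
private def Gt (f : ℝ → ℝ) (k i : ℕ) (t : ℝ) : ℝ :=
  if |f t| ≤ (2 : ℝ) ^ ((i + 2) * k) then f t else 0

private theorem Gt_abs_le (f : ℝ → ℝ) (k i : ℕ) (t : ℝ) : |Gt f k i t| ≤ |f t| := by
  unfold Gt
  split_ifs
  · exact le_rfl
  · rw [abs_zero]; exact abs_nonneg _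

private theorem Gt_sq_le (f : ℝ → ℝ) (k i : ℕ) (t : ℝ) :
    (Gt f k i t) ^ 2 ≤ (2 : ℝ) ^ ((i + 2) * k) * |f t| := by
  unfold Gt
  split_ifs with h
  · rw [← sq_abs, pow_two]
    exact mul_le_mul_of_nonneg_right h (abs_nonneg _)
  · rw [zero_pow two_ne_zero]; positivity

private theorem sub_Gt_le {p : ℝ} (hp : 1 < p) (f : ℝ → ℝ) {k : ℕ} (hk : 1 ≤ k * (p - 1)) (i : ℕ)
    (t : ℝ) : |f t - Gt f k i t| ≤ |f t| ^ p / 2 ^ (i + 2) := by
  unfold Gt
  split_ifs with h
  · rw [sub_self, abs_zero]; positivity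
  · rw [sub_zero, le_div_iff₀ (by positivity)]
    have h1 : (2 : ℝ) ^ ((i + 2) * k) < |f t| := not_le.mp h
    have hpos : 0 < |f t| := lt_trans (by positivity) h1
    have h2 : |f t| ^ p = |f t| * |f t| ^ (p - 1) := by
      rw [← Real.rpow_one_add' hpos.le (by linarith)]
      congr 1
      ring
    rw [h2]
    refine mul_le_mul_of_nonneg_left ?_ hpos.le
    have h3 : ((2 : ℝ) ^ ((i + 2) * k)) ^ (p - 1) ≤ |f t| ^ (p - 1) :=
      Real.rpow_le_rpow (by positivity) h1.le (by linarith)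
    have h4 : ((2 : ℝ) ^ ((i + 2) * k)) ^ (p - 1) = ((2 : ℝ) ^ (i + 2)) ^ ((k : ℝ) * (p - 1)) := by
      rw [pow_mul, Real.rpow_mul (by positivity), Real.rpow_natCast]
    have h5 : ((2 : ℝ) ^ (i + 2)) ^ (1 : ℝ) ≤ ((2 : ℝ) ^ (i + 2)) ^ ((k : ℝ) * (p - 1)) :=
      Real.rpow_le_rpow_of_exponent_le (one_le_pow₀ (by norm_num)) hk
    rw [Real.rpow_one] at h5
    linarith [h4 ▸ h3]

theorem hLpl (h1 : StBes) : StLpl := by
  intro p B hp
  obtain ⟨k0, hk0⟩ := exists_nat_ge (1 / (p - 1))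
  set k : ℕ := k0 + 1 with hkdef
  have hp1 : 0 < p - 1 := by linarith
  have hk : 1 ≤ (k : ℝ) * (p - 1) := by
    have h2 : 1 / (p - 1) ≤ k := by
      rw [hkdef]; push_cast; linarith
    rwa [div_le_iff₀ hp1] at h2
  have hk1 : 1 ≤ k := by omega
  set R : ℝ := 2 * Real.pi + |B| with hR
  have hpi := Real.pi_gt_three
  have hR1 : 1 ≤ R := by
    have := abs_nonneg B
    rw [hR]; linarith
  have hR0 : 0 < R := by linarith
  refine ⟨k + 1, 32 * Real.pi * R ^ (2 * k + 1) * 4 ^ k, by omega, ?_⟩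
  intro f hf2 hfp hB N
  set μ : Measure ℝ := volume.restrict (Ioc 0 (2 * Real.pi)) with hμ
  have h2pi : (0 : ℝ) ≤ 2 * Real.pi := by positivity
  have hvol : μ.real univ = 2 * Real.pi := by
    rw [hμ, Measure.real, Measure.restrict_apply_univ, Real.volume_Ioc, sub_zero,
      ENNReal.toReal_ofReal (by positivity)]
  rw [intervalIntegral.integral_of_le h2pi] at hB
  have hfi : Integrable f μ := hf2.integrable (by norm_num)
  have hBR : ∫ t, |f t| ^ p ∂μ ≤ R := by
    have := le_abs_self B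
    rw [hR]; linarith [hB]
  have hf1 : ∫ t, |f t| ∂μ ≤ R := by
    have h3 : ∫ t, |f t| ∂μ ≤ ∫ t, (1 + |f t| ^ p) ∂μ := by
      refine integral_mono hfi.abs ((integrable_const _).add hfp) fun t => ?_
      rcases le_total |f t| 1 with h | h
      · have := Real.rpow_nonneg (abs_nonneg (f t)) p
        simp only
        linarith
      · have h4 := Real.rpow_le_rpow_of_exponent_le h hp.le
        rw [Real.rpow_one] at h4
        simp only
        linarith
    rw [integral_add (integrable_const _) hfp, integral_const, hvol, smul_eq_mul, mul_one] at h3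
    have := le_abs_self B
    rw [hR]; linarith [hB]
  -- the cosines
  have hcm : ∀ n : ℕ, AEStronglyMeasurable (fun t : ℝ => Real.cos (n * t)) μ := fun n =>
    (by fun_prop : Continuous (fun t : ℝ => Real.cos (n * t))).aestronglyMeasurable
  have hcb : ∀ n : ℕ, ∀ᵐ t ∂μ, ‖Real.cos ((n : ℝ) * t)‖ ≤ 1 := fun n =>
    Filter.Eventually.of_forall (fun t => by
      rw [Real.norm_eq_abs]; exact Real.abs_cos_le_one _)
  have hint : ∀ (g : ℝ → ℝ), Integrable g μ → ∀ n : ℕ,
      Integrable (fun t => g t * Real.cos (n * t)) μ := fun g hg n => by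
    have := hg.bdd_mul (hcm n) (hcb n)
    simpa [mul_comm] using this
  have hbd : ∀ (g : ℝ → ℝ), Integrable g μ → ∀ n : ℕ,
      |∫ t, g t * Real.cos (n * t) ∂μ| ≤ ∫ t, |g t| ∂μ := fun g hg n => by
    refine (abs_integral_le_integral_abs).trans ?_
    refine integral_mono (hint g hg n).abs hg.abs fun t => ?_
    simp only
    rw [abs_mul]
    exact mul_le_of_le_one_right (abs_nonneg _) (Real.abs_cos_le_one _)
  -- the truncations
  have hGm : ∀ i : ℕ, AEStronglyMeasurable (Gt f k i) μ := by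
    intro i
    have hfm : AEMeasurable f μ := hfi.aemeasurable
    have hT : MeasurableSet {x : ℝ | |x| ≤ (2 : ℝ) ^ ((i + 2) * k)} :=
      measurableSet_le (by fun_prop) measurable_const
    have hg : Measurable (fun x : ℝ => if |x| ≤ (2 : ℝ) ^ ((i + 2) * k) then x else 0) :=
      Measurable.ite hT measurable_id measurable_const
    exact (hg.comp_aemeasurable hfm).aestronglyMeasurable
  have hG2 : ∀ i : ℕ, MemLp (Gt f k i) 2 μ := fun i =>
    hf2.mono (hGm i) (Filter.Eventually.of_forall fun t => Gt_abs_le f k i t)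
  have hGi : ∀ i : ℕ, Integrable (Gt f k i) μ := fun i => (hG2 i).integrable (by norm_num)
  -- the two estimates
  have hrest : ∀ i n : ℕ, |(∫ t, f t * Real.cos (n * t) ∂μ) - ∫ t, Gt f k i t * Real.cos (n * t) ∂μ|
      ≤ R / 2 ^ (i + 2) := by
    intro i n
    rw [← integral_sub (hint f hfi n) (hint _ (hGi i) n)]
    have e : ∀ t, f t * Real.cos (n * t) - Gt f k i t * Real.cos (n * t)
        = (f t - Gt f k i t) * Real.cos (n * t) := fun t => by ring
    simp_rw [e]
    refine (hbd _ (hfi.sub (hGi i)) n).trans ?_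
    have h5 : ∫ t, |f t - Gt f k i t| ∂μ ≤ ∫ t, |f t| ^ p / 2 ^ (i + 2) ∂μ :=
      integral_mono (hfi.sub (hGi i)).abs (hfp.div_const _) fun t => sub_Gt_le hp f hk i t
    refine h5.trans ?_
    rw [integral_div]
    exact div_le_div_of_nonneg_right hBR (by positivity)
  have hsum : ∀ i : ℕ, ∑ n ∈ Finset.Icc 1 N, (∫ t, Gt f k i t * Real.cos (n * t) ∂μ) ^ 2
      ≤ Real.pi * (2 ^ ((i + 2) * k) * R) := by
    intro i
    have h6 := h1 (Gt f k i) (hG2 i) N
    simp_rw [intervalIntegral.integral_of_le h2pi] at h6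
    refine h6.trans (mul_le_mul_of_nonneg_left ?_ Real.pi_pos.le)
    have h7 : ∫ t, (Gt f k i t) ^ 2 ∂μ ≤ ∫ t, (2 : ℝ) ^ ((i + 2) * k) * |f t| ∂μ :=
      integral_mono (hG2 i).integrable_sq (hfi.abs.const_mul _) fun t => Gt_sq_le f k i t
    refine h7.trans ?_
    rw [integral_const_mul]
    exact mul_le_mul_of_nonneg_left hf1 (by positivity)
  -- the position of a coefficient
  have hpos : ∀ n : ℕ, ∃ i : ℕ, (∫ t, f t * Real.cos (n * t) ∂μ) ^ (2 * (k + 1)) ≤
      16 * (R / 2 ^ i) ^ (2 * k) * (∫ t, Gt f k i t * Real.cos (n * t) ∂μ) ^ 2 := by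
    intro n
    set x : ℝ := ∫ t, f t * Real.cos (n * t) ∂μ with hx
    have hxR : |x| ≤ R := (hbd f hfi n).trans hf1
    rcases eq_or_ne x 0 with h0 | h0
    · refine ⟨0, ?_⟩
      rw [h0, zero_pow (by omega)]
      positivity
    · have hx0 : 0 < |x| := abs_pos.mpr h0
      obtain ⟨i, hi1, hi2⟩ := exists_nat_pow_near_of_lt_one (div_pos hx0 hR0)
        ((div_le_one hR0).mpr hxR) (show (0 : ℝ) < 1 / 2 by norm_num) (by norm_num)
      refine ⟨i, ?_⟩
      set y : ℝ := ∫ t, Gt f k i t * Real.cos (n * t) ∂μ with hy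
      have hd := hrest i n
      rw [← hx, ← hy] at hd
      rw [lt_div_iff₀ hR0] at hi1
      rw [div_le_iff₀ hR0] at hi2
      set η : ℝ := R / 2 ^ i with hη
      have hη0 : 0 < η := by positivity
      have e1 : (1 / 2 : ℝ) ^ (i + 1) * R = η / 2 := by
        rw [hη, div_pow, one_pow, pow_succ]; field_simp
      have e2 : (1 / 2 : ℝ) ^ i * R = η := by
        rw [hη, div_pow, one_pow]; field_simp
      have e3 : R / 2 ^ (i + 2) = η / 4 := by
        rw [hη, pow_add]; field_simp; norm_num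
      rw [e1] at hi1
      rw [e2] at hi2
      rw [e3] at hd
      have hy1 : η / 4 ≤ |y| := by
        have h8 := abs_sub_abs_le_abs_sub x y
        linarith
      have hy2 : (η / 4) ^ 2 ≤ y ^ 2 := by
        rw [← sq_abs y]
        exact pow_le_pow_left₀ (by positivity) hy1 2
      have h9 : x ^ (2 * (k + 1)) = |x| ^ (2 * (k + 1)) := by
        rw [pow_mul, pow_mul, sq_abs]
      rw [h9]
      calc |x| ^ (2 * (k + 1)) ≤ η ^ (2 * (k + 1)) := pow_le_pow_left₀ hx0.le hi2 _
        _ = 16 * η ^ (2 * k) * (η / 4) ^ 2 := by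
            rw [show 2 * (k + 1) = 2 * k + 2 by ring, pow_add]; ring
        _ ≤ 16 * η ^ (2 * k) * y ^ 2 := mul_le_mul_of_nonneg_left hy2 (by positivity)
  choose ι hι using hpos
  set L : ℕ := (Finset.Icc 1 N).sup ι + 1 with hL
  simp_rw [intervalIntegral.integral_of_le h2pi]
  have hstep : ∑ n ∈ Finset.Icc 1 N, (∫ t, f t * Real.cos (n * t) ∂μ) ^ (2 * (k + 1)) ≤
      ∑ n ∈ Finset.Icc 1 N, ∑ i ∈ Finset.range L,
        16 * (R / 2 ^ i) ^ (2 * k) * (∫ t, Gt f k i t * Real.cos (n * t) ∂μ) ^ 2 := by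
    refine Finset.sum_le_sum fun n hn => ?_
    refine (hι n).trans ?_
    have hmem : ι n ∈ Finset.range L := by
      rw [Finset.mem_range, hL]
      exact Nat.lt_succ_of_le (Finset.le_sup (f := ι) hn)
    exact Finset.single_le_sum (f := fun i => 16 * (R / 2 ^ i) ^ (2 * k) *
      (∫ t, Gt f k i t * Real.cos (n * t) ∂μ) ^ 2) (fun i _ => by positivity) hmem
  refine hstep.trans ?_
  rw [Finset.sum_comm]
  have hterm : ∀ i ∈ Finset.range L, ∑ n ∈ Finset.Icc 1 N, 16 * (R / 2 ^ i) ^ (2 * k) *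
      (∫ t, Gt f k i t * Real.cos (n * t) ∂μ) ^ 2 ≤
      16 * Real.pi * R ^ (2 * k + 1) * 4 ^ k * (1 / 2) ^ i := by
    intro i _
    rw [← Finset.mul_sum]
    refine (mul_le_mul_of_nonneg_left (hsum i) (by positivity)).trans ?_
    have e4 : 16 * (R / 2 ^ i) ^ (2 * k) * (Real.pi * (2 ^ ((i + 2) * k) * R)) =
        16 * Real.pi * R ^ (2 * k + 1) * 4 ^ k * (1 / 2 ^ i) ^ k := by
      rw [div_pow, div_pow, one_pow, ← pow_mul, ← pow_mul, show (i + 2) * k = i * k + 2 * k by ring,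
        pow_add, show (4 : ℝ) ^ k = 2 ^ (2 * k) by rw [pow_mul]; norm_num,
        show i * (2 * k) = i * k + i * k by ring, pow_add (2 : ℝ) (i * k) (i * k)]
      field_simp
      ring
    rw [e4]
    refine mul_le_mul_of_nonneg_left ?_ (by positivity)
    rw [one_div_pow (a := (2 : ℝ)) (n := i)]
    have h10 : (1 / 2 ^ i : ℝ) ≤ 1 := by
      rw [div_le_one (by positivity)]
      exact one_le_pow₀ (by norm_num)
    calc (1 / 2 ^ i : ℝ) ^ k ≤ (1 / 2 ^ i : ℝ) ^ 1 :=
          pow_le_pow_of_le_one (by positivity) h10 hk1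
      _ = 1 / 2 ^ i := pow_one _
  refine (Finset.sum_le_sum hterm).trans ?_
  rw [← Finset.mul_sum]
  have hgeo : ∑ i ∈ Finset.range L, (1 / 2 : ℝ) ^ i ≤ 2 := by
    have h11 := Summable.sum_le_tsum (Finset.range L) (fun i _ => by positivity)
      (summable_geometric_two)
    rwa [tsum_geometric_two] at h11
  calc 16 * Real.pi * R ^ (2 * k + 1) * 4 ^ k * ∑ i ∈ Finset.range L, (1 / 2 : ℝ) ^ i
      ≤ 16 * Real.pi * R ^ (2 * k + 1) * 4 ^ k * 2 := mul_le_mul_of_nonneg_left hgeo (by positivity)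
    _ = 32 * Real.pi * R ^ (2 * k + 1) * 4 ^ k := by ring

end Pool.Agent.Helper2.SLM

end
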