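import Pool.Agent.Helper53.SL.St2
import Pool.Agent.Helper2.SL.M_UNI

set_option autoImplicit false

open Polynomial MeasureTheory Set
open Pool.Agent.Helper96.Salem (lm lm_nonneg lm_measurable geo geo_nonneg logMahler_lower SVP SV)

noncomputable section

namespace Pool.Agent.Helper2.SLM

open Pool.Agent.Helper53.SL

/-- upper bound of a real power by a natural power -/
private theorem rpow_le_pow {y p : ℝ} {m : ℕ} (hy : 0 ≤ y) (hp : 0 ≤ p) (hpm : p ≤ m) :
    y ^ p ≤ 1 + y ^ m := by
  rcases le_total y 1 with h | h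
  · have := Real.rpow_le_one hy h hp
    have := pow_nonneg hy m
    linarith
  · have h1 := Real.rpow_le_rpow_of_exponent_le h hpm
    rw [Real.rpow_natCast] at h1
    linarith

/-- upper bound of powers of the logarithm -/
private theorem log_pow_le {x M : ℝ} {m : ℕ} (hm : 1 ≤ m) (hx : 0 ≤ x) (hM : 1 ≤ M) (hxM : x ≤ M) :
    |Real.log x| ^ m ≤ lm x ^ m + (Real.log M) ^ m := by
  have hlm := lm_nonneg x
  have hlM : 0 ≤ Real.log M := Real.log_nonneg hM
  rcases eq_or_lt_of_le hx with h0 | h0
  · have e : |Real.log x| = 0 := by rw [← h0, Real.log_zero, abs_zero]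
    rw [e, zero_pow (by omega)]
    positivity
  · rcases le_total 0 (Real.log x) with h | h
    · have h2 := Real.log_le_log h0 hxM
      rw [abs_of_nonneg h]
      have := pow_le_pow_left₀ h h2 m
      have := pow_nonneg hlm m
      linarith
    · have h1 : -Real.log x ≤ lm x := by
        unfold Pool.Agent.Helper96.Salem.lm
        exact le_max_left _ _
      rw [abs_of_nonpos h]
      have := pow_le_pow_left₀ (by linarith) h1 m
      have := pow_nonneg hlM m
      linarith

theorem hUnp (h1 : StLtp) : StUnp := by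
  intro k M p hp
  obtain ⟨m, hmp⟩ := exists_nat_ge p
  have hm1 : 1 ≤ m := by
    have : (1 : ℝ) ≤ m := hp.trans hmp
    exact_mod_cast this
  obtain ⟨K, hK, N, hN, h⟩ := SV k
  obtain ⟨C, hC0, hC⟩ := h1 k m
  set D : ℝ := max M 1 * Real.exp (N * (K * geo)) with hD
  have hD1 : 1 ≤ D := by
    have h2 : (1 : ℝ) ≤ max M 1 := le_max_right _ _
    have h3 : (1 : ℝ) ≤ Real.exp (N * (K * geo)) := by
      apply Real.one_le_exp
      have := geo_nonneg
      positivity
    rw [hD]
    nlinarith
  set M1 : ℝ := (k + 1) * D with hM1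
  have hM11 : 1 ≤ M1 := by
    have : (0 : ℝ) ≤ k := Nat.cast_nonneg k
    rw [hM1]
    nlinarith
  refine ⟨(2 * Real.pi)⁻¹ * (2 * Real.pi + (C + 2 * Real.pi * (Real.log M1) ^ m)), ?_⟩
  intro A hA hk hM
  obtain ⟨j, hj⟩ : ∃ j, A.coeff j ≠ 0 := by
    by_contra hcon
    push Not at hcon
    exact hA (Polynomial.ext (by simpa using hcon))
  have hcj : 1 ≤ ‖(cx A).coeff j‖ := by
    have e : (cx A).coeff j = (A.coeff j : ℂ) := by
      unfold cx
      rw [coeff_map]
      rfl
    rw [e, Complex.norm_intCast]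
    exact_mod_cast Int.one_le_abs hj
  have hcard : (cx A).support.card ≤ k :=
    (Finset.card_le_card (support_map_subset _ _)).trans hk
  have hint := hC (cx A) hcard j hcj
  have hup : ∀ t : ℝ, ‖(cx A).eval (circleMap 0 1 t)‖ ≤ M1 := by
    intro t
    rw [eval_eq_sum, sum_def]
    refine (norm_sum_le _ _).trans ?_
    have h5 : ∀ i ∈ (cx A).support, ‖(cx A).coeff i * circleMap 0 1 t ^ i‖ ≤ D := by
      intro i _
      rw [norm_mul, norm_pow, Pool.Agent.Helper96.Salem.circle_norm, one_pow, mul_one]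
      exact Pool.Agent.Helper2.SL.coeff_bd hK hN h hk hM i
    refine (Finset.sum_le_card_nsmul _ _ _ h5).trans ?_
    rw [nsmul_eq_mul, hM1]
    have h6 : ((cx A).support.card : ℝ) ≤ k := by exact_mod_cast hcard
    nlinarith
  have hcont : Continuous (fun t : ℝ => (cx A).eval (circleMap 0 1 t)) :=
    (cx A).continuous.comp (continuous_circleMap 0 1)
  have hmeas : Measurable (fun t : ℝ => lm ‖(cx A).eval (circleMap 0 1 t)‖) :=
    lm_measurable.comp hcont.norm.measurable
  set μ : Measure ℝ := volume.restrict (Ioc 0 (2 * Real.pi)) with hμ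
  have hnn : ∀ t : ℝ, 0 ≤ lm ‖(cx A).eval (circleMap 0 1 t)‖ ^ m := fun t =>
    pow_nonneg (lm_nonneg _) m
  have hI : Integrable (fun t : ℝ => lm ‖(cx A).eval (circleMap 0 1 t)‖ ^ m) μ := by
    refine ⟨(hmeas.pow_const m).aestronglyMeasurable, ?_⟩
    rw [hasFiniteIntegral_iff_ofReal (Filter.Eventually.of_forall hnn)]
    rw [hμ, ← restrict_Ico_eq_restrict_Ioc]
    exact hint.trans_lt ENNReal.ofReal_lt_top
  have hIle : ∫ t, lm ‖(cx A).eval (circleMap 0 1 t)‖ ^ m ∂μ ≤ C := by
    rw [integral_eq_lintegral_of_nonneg_ae (Filter.Eventually.of_forall hnn)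
      (hmeas.pow_const m).aestronglyMeasurable]
    rw [hμ, ← restrict_Ico_eq_restrict_Ioc]
    exact ENNReal.toReal_le_of_le_ofReal hC0 hint
  have hvol : μ.real univ = 2 * Real.pi := by
    rw [hμ, Measure.real, Measure.restrict_apply_univ, Real.volume_Ioc, sub_zero,
      ENNReal.toReal_ofReal (by positivity)]
  have hdom0 : Integrable (fun t : ℝ => lm ‖(cx A).eval (circleMap 0 1 t)‖ ^ m
      + (Real.log M1) ^ m) μ := hI.add (integrable_const _)
  have hdom : Integrable (fun t : ℝ => 1 + (lm ‖(cx A).eval (circleMap 0 1 t)‖ ^ m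
      + (Real.log M1) ^ m)) μ := (integrable_const _).add hdom0
  have hmain : ∫ t, |Real.log ‖(cx A).eval (circleMap 0 1 t)‖| ^ p ∂μ
      ≤ 2 * Real.pi + (C + 2 * Real.pi * (Real.log M1) ^ m) := by
    have h7 : ∫ t, |Real.log ‖(cx A).eval (circleMap 0 1 t)‖| ^ p ∂μ ≤
        ∫ t, (1 + (lm ‖(cx A).eval (circleMap 0 1 t)‖ ^ m + (Real.log M1) ^ m)) ∂μ := by
      refine integral_mono_of_nonneg
        (Filter.Eventually.of_forall fun t => Real.rpow_nonneg (abs_nonneg _) p) hdom
        (Filter.Eventually.of_forall fun t => ?_)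
      have h8 := rpow_le_pow (abs_nonneg (Real.log ‖(cx A).eval (circleMap 0 1 t)‖))
        (by linarith : (0 : ℝ) ≤ p) hmp
      have h9 := log_pow_le hm1 (norm_nonneg _) hM11 (hup t)
      simp only
      linarith
    rw [integral_add (integrable_const _) hdom0, integral_add hI (integrable_const _),
      integral_const, integral_const, hvol, smul_eq_mul, smul_eq_mul, mul_one] at h7
    linarith
  unfold momp
  rw [Real.circleAverage_def, intervalIntegral.integral_of_le (by positivity), smul_eq_mul]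
  refine mul_le_mul_of_nonneg_left ?_ (by positivity)
  refine le_of_eq_of_le ?_ hmain
  refine integral_congr_ae (Filter.Eventually.of_forall fun t => ?_)
  simp [cx]

end Pool.Agent.Helper2.SLM

end
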